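import Mathlib

/-!
# Variance of the coprime count in a random lattice square

`Z M a b` is the number of coprime pairs in the `M × M` block based at `(a, b)`; `prob M r` is the
asymptotic frequency of `Z M = r` over `[1, n]²`; `variance M` is the variance of the limit law.
We show that the limits exist, that they sum to one, and that the variance is at most `24 M²`.
-/

set_option autoImplicit false

open Finset Filter Topology

namespace Pool.Agent.Results.MP_143e3a_nt.VarianceBound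

/-- the number of coprime pairs `(i, j)` with `a+1 ≤ i ≤ a+M`, `b+1 ≤ j ≤ b+M` -/
def Z (M a b : ℕ) : ℕ :=
  ((Finset.Icc (a + 1) (a + M) ×ˢ Finset.Icc (b + 1) (b + M)).filter
    (fun q => Nat.Coprime q.1 q.2)).card

/-- the proportion of base points `(a, b)` in `[1, n]²` with `Z M a b = r` -/
noncomputable def freq (M r n : ℕ) : ℝ :=
  (((Finset.Icc 1 n ×ˢ Finset.Icc 1 n).filter (fun q => Z M q.1 q.2 = r)).card : ℝ) / (n : ℝ) ^ 2

/-- the limiting proportion `p_M(r)` -/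
noncomputable def prob (M r : ℕ) : ℝ := limUnder atTop (fun n : ℕ => freq M r n)

/-- the mean of the limit law -/
noncomputable def mean (M : ℕ) : ℝ := ∑ r ∈ Finset.range (M ^ 2 + 1), (r : ℝ) * prob M r

/-- the variance of the limit law -/
noncomputable def variance (M : ℕ) : ℝ :=
  ∑ r ∈ Finset.range (M ^ 2 + 1), ((r : ℝ) - mean M) ^ 2 * prob M r

/-- Möbius sum. -/
lemma sum_mu (n : ℕ) : ∑ d ∈ n.divisors, (ArithmeticFunction.moebius d) = if n = 1 then 1 else 0 := by
  rw [← ArithmeticFunction.coe_mul_zeta_apply, ArithmeticFunction.moebius_mul_coe_zeta]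
  simp [ArithmeticFunction.one_apply]

/-- counts in one residue class -/
lemma cnt_eq (n g c : ℕ) (hg : 0 < g) (hc : c < g) :
    (((range n).filter (fun i => i % g = c)).card : ℕ) = n / g + if c < n % g then 1 else 0 := by
  have h := Nat.count_modEq_card n hg c
  rw [Nat.count_eq_card_filter_range] at h
  rw [Nat.mod_eq_of_lt hc] at h
  rw [← h]
  congr 1
  ext i
  simp [Nat.ModEq, Nat.mod_eq_of_lt hc]

/-- number of pairs (i,i') below M congruent mod g -/
lemma S_eq (M g : ℕ) (hg : 0 < g) :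
    ∑ i ∈ range M, ∑ i' ∈ range M, (if i % g = i' % g then 1 else 0 : ℕ)
      = g * (M / g) ^ 2 + 2 * (M / g) * (M % g) + M % g := by
  have h1 : ∀ i ∈ range M, ∀ i' ∈ range M, (if i % g = i' % g then 1 else 0 : ℕ)
      = ∑ c ∈ range g, (if i % g = c then 1 else 0) * (if i' % g = c then 1 else 0) := by
    intro i _ i' _
    rw [Finset.sum_eq_single (i % g)]
    · simp [eq_comm]
    · intro b _ hb
      simp [Ne.symm hb]
    · intro h
      exact absurd (mem_range.mpr (Nat.mod_lt _ hg)) h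
  rw [sum_congr rfl (fun i hi => sum_congr rfl (fun i' hi' => h1 i hi i' hi'))]
  rw [sum_congr rfl (fun i hi => sum_comm)]
  rw [sum_comm]
  have h2 : ∀ c ∈ range g, (∑ i ∈ range M, ∑ i' ∈ range M,
      (if i % g = c then 1 else 0) * (if i' % g = c then 1 else 0) : ℕ)
      = (M / g) ^ 2 + (2 * (M / g) + 1) * (if c < M % g then 1 else 0) := by
    intro c hc
    rw [← sum_mul_sum]
    rw [← card_filter, cnt_eq M g c hg (mem_range.mp hc)]
    split_ifs <;> ring
  rw [sum_congr rfl h2, sum_add_distrib, ← mul_sum, ← card_filter]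
  have h3 : (range g).filter (fun c => c < M % g) = range (M % g) := by
    ext c
    simp only [mem_filter, mem_range]
    have := Nat.mod_lt M hg
    constructor
    · intro h; exact h.2
    · intro h; exact ⟨by omega, h⟩
  rw [h3]
  simp
  ring

lemma S_bounds (M g : ℕ) (hg : 0 < g) (S : ℝ)
    (hS : S = ((∑ i ∈ range M, ∑ i' ∈ range M, (if i % g = i' % g then 1 else 0 : ℕ) : ℕ) : ℝ)) :
    |S ^ 2 - ((M : ℝ) ^ 2 / g) ^ 2| ≤ 3 * (M : ℝ) ^ 2 := by
  rw [S_eq M g hg] at hS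
  have hM : (M : ℝ) = g * ((M / g : ℕ) : ℝ) + ((M % g : ℕ) : ℝ) := by
    exact_mod_cast (Nat.div_add_mod M g).symm
  push_cast at hS
  set q : ℝ := ((M / g : ℕ) : ℝ) with hq
  set r : ℝ := ((M % g : ℕ) : ℝ) with hr
  have hg' : (0 : ℝ) < g := by exact_mod_cast hg
  have hrg : r ≤ g := by
    rw [hr]; exact_mod_cast (Nat.mod_lt M hg).le
  have hr0 : 0 ≤ r := by positivity
  have hq0 : 0 ≤ q := by positivity
  have hrM : r ≤ M := by rw [hM]; nlinarith
  have hD : S - (M : ℝ) ^ 2 / g = r * (1 - r / g) := by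
    rw [hS, hM]
    field_simp
    ring
  have hrg1 : r / g ≤ 1 := by rw [div_le_one hg']; exact hrg
  have hrg0 : 0 ≤ r / g := by positivity
  have hD0 : 0 ≤ S - (M : ℝ) ^ 2 / g := by rw [hD]; apply mul_nonneg hr0; linarith
  have hD1 : S - (M : ℝ) ^ 2 / g ≤ r := by rw [hD]; nlinarith
  have hMg : 0 ≤ (M : ℝ) ^ 2 / g := by positivity
  have hfac : S ^ 2 - ((M : ℝ) ^ 2 / g) ^ 2
      = (S - (M : ℝ) ^ 2 / g) * (2 * ((M : ℝ) ^ 2 / g) + (S - (M : ℝ) ^ 2 / g)) := by ring
  rw [abs_le]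
  constructor
  · rw [hfac]
    have : 0 ≤ (S - (M : ℝ) ^ 2 / g) * (2 * ((M : ℝ) ^ 2 / g) + (S - (M : ℝ) ^ 2 / g)) := by
      apply mul_nonneg hD0; linarith
    have h2 : 0 ≤ (M : ℝ) ^ 2 := by positivity
    linarith
  · rw [hfac]
    calc (S - (M : ℝ) ^ 2 / g) * (2 * ((M : ℝ) ^ 2 / g) + (S - (M : ℝ) ^ 2 / g))
        ≤ r * (2 * ((M : ℝ) ^ 2 / g) + r) := by
          apply mul_le_mul hD1 (by linarith) (by linarith) hr0
      _ = 2 * (M : ℝ) ^ 2 * (r / g) + r * r := by field_simp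
      _ ≤ 2 * (M : ℝ) ^ 2 * 1 + M * M := by
          apply add_le_add
          · apply mul_le_mul_of_nonneg_left hrg1 (by positivity)
          · apply mul_le_mul hrM hrM hr0 (by positivity)
      _ = 3 * (M : ℝ) ^ 2 := by ring

/-- sum of inverse squares over a finite set of positive integers -/
lemma sum_inv_sq_le (D : Finset ℕ) (hD : ∀ d ∈ D, 0 < d) : ∑ d ∈ D, (1 : ℝ) / (d : ℝ) ^ 2 ≤ 2 := by
  have h1 : ∑ d ∈ D, (1 : ℝ) / (d : ℝ) ^ 2 ≤ Real.pi ^ 2 / 6 := by
    rw [← hasSum_zeta_two.tsum_eq]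
    exact hasSum_zeta_two.summable.sum_le_tsum D (fun i _ => by positivity)
  have h2 : Real.pi ^ 2 / 6 ≤ 2 := by
    have := Real.pi_lt_d2
    have := Real.pi_pos
    nlinarith
  linarith

lemma sum_mult_inv_sq_le (D : Finset ℕ) (hD : ∀ d ∈ D, 0 < d) (g : ℕ) (hg : 0 < g) :
    ∑ d ∈ D.filter (fun d => g ∣ d), (1 : ℝ) / (d : ℝ) ^ 2 ≤ 2 / (g : ℝ) ^ 2 := by
  have h := sum_inv_sq_le ((D.filter (fun d => g ∣ d)).image (fun d => d / g)) (by
    intro k hk
    simp only [mem_image, mem_filter] at hk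
    obtain ⟨d, ⟨hd, hgd⟩, rfl⟩ := hk
    exact Nat.div_pos (Nat.le_of_dvd (hD d hd) hgd) hg)
  rw [sum_image] at h
  · have h2 : ∑ d ∈ D.filter (fun d => g ∣ d), (1 : ℝ) / (d : ℝ) ^ 2
        = (1 / (g : ℝ) ^ 2) * ∑ d ∈ D.filter (fun d => g ∣ d), (1 : ℝ) / ((d / g : ℕ) : ℝ) ^ 2 := by
      rw [mul_sum]
      apply sum_congr rfl
      intro d hd
      obtain ⟨hd, k, rfl⟩ := mem_filter.mp hd
      rw [Nat.mul_div_cancel_left _ hg]
      push_cast
      rw [mul_pow, one_div_mul_one_div]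
    rw [h2]
    have hg' : (0 : ℝ) < 1 / (g : ℝ) ^ 2 := by positivity
    calc (1 / (g : ℝ) ^ 2) * _ ≤ (1 / (g : ℝ) ^ 2) * 2 := by gcongr
      _ = 2 / (g : ℝ) ^ 2 := by ring
  · intro a ha b hb hab
    obtain ⟨_, k, rfl⟩ := mem_filter.mp ha
    obtain ⟨_, l, rfl⟩ := mem_filter.mp hb
    simp only [Nat.mul_div_cancel_left _ hg] at hab
    rw [hab]

lemma sum_lcm_le (D : Finset ℕ) (hD : ∀ d ∈ D, 0 < d)
    (hcl : ∀ d ∈ D, ∀ e ∈ D, Nat.gcd d e ∈ D) :
    ∑ d ∈ D, ∑ e ∈ D, (1 : ℝ) / (Nat.lcm d e : ℝ) ^ 2 ≤ 8 := by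
  calc ∑ d ∈ D, ∑ e ∈ D, (1 : ℝ) / (Nat.lcm d e : ℝ) ^ 2
      ≤ ∑ d ∈ D, ∑ e ∈ D, ∑ g ∈ D, (if g ∣ d ∧ g ∣ e then
          (g : ℝ) ^ 2 * ((1 / (d : ℝ) ^ 2) * (1 / (e : ℝ) ^ 2)) else 0) := by
        apply sum_le_sum
        intro d hd
        apply sum_le_sum
        intro e he
        have hd0 : (0 : ℝ) < d := by exact_mod_cast hD d hd
        have he0 : (0 : ℝ) < e := by exact_mod_cast hD e he
        have hgl : (Nat.gcd d e : ℝ) * (Nat.lcm d e : ℝ) = d * e := by
          exact_mod_cast Nat.gcd_mul_lcm d e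
        have hg0 : (0 : ℝ) < Nat.gcd d e := by
          exact_mod_cast Nat.gcd_pos_of_pos_left e (hD d hd)
        have hl0 : (0 : ℝ) < Nat.lcm d e := by
          exact_mod_cast Nat.lcm_pos (hD d hd) (hD e he)
        have heq : (1 : ℝ) / (Nat.lcm d e : ℝ) ^ 2
            = (Nat.gcd d e : ℝ) ^ 2 * ((1 / (d : ℝ) ^ 2) * (1 / (e : ℝ) ^ 2)) := by
          have : (d : ℝ) ^ 2 * (e : ℝ) ^ 2 = (Nat.gcd d e : ℝ) ^ 2 * (Nat.lcm d e : ℝ) ^ 2 := by
            rw [← mul_pow, ← mul_pow, hgl]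
          rw [one_div_mul_one_div, this]
          field_simp
        rw [heq]
        have := single_le_sum (f := fun g : ℕ => (if g ∣ d ∧ g ∣ e then
          (g : ℝ) ^ 2 * ((1 / (d : ℝ) ^ 2) * (1 / (e : ℝ) ^ 2)) else 0))
          (s := D) (fun g _ => by
            by_cases h : g ∣ d ∧ g ∣ e
            · simp only [h, and_self, if_true]; positivity
            · simp only [h, if_false]; exact le_refl _) (hcl d hd e he)
        simpa [Nat.gcd_dvd_left, Nat.gcd_dvd_right] using this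
    _ = ∑ g ∈ D, (g : ℝ) ^ 2 * (∑ d ∈ D.filter (fun d => g ∣ d), (1 : ℝ) / (d : ℝ) ^ 2) ^ 2 := by
        rw [sum_congr rfl (fun d _ => sum_comm), sum_comm]
        apply sum_congr rfl
        intro g _
        rw [sq (∑ d ∈ D.filter (fun d => g ∣ d), (1 : ℝ) / (d : ℝ) ^ 2), sum_mul_sum, mul_sum,
          sum_filter]
        apply sum_congr rfl
        intro d _
        by_cases h : g ∣ d
        · simp only [h, true_and, if_true]
          rw [mul_sum, sum_filter]
        · simp [h]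
    _ ≤ ∑ g ∈ D, (g : ℝ) ^ 2 * (2 / (g : ℝ) ^ 2) ^ 2 := by
        apply sum_le_sum
        intro g hg
        apply mul_le_mul_of_nonneg_left _ (by positivity)
        apply pow_le_pow_left₀
        · apply sum_nonneg; intro d _; positivity
        · exact sum_mult_inv_sq_le D hD g (hD g hg)
    _ = 4 * ∑ g ∈ D, (1 : ℝ) / (g : ℝ) ^ 2 := by
        rw [mul_sum]
        apply sum_congr rfl
        intro g hg
        have hg0 : (0 : ℝ) < g := by exact_mod_cast hD g hg
        field_simp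
        norm_num
    _ ≤ 4 * 2 := by gcongr; exact sum_inv_sq_le D hD
    _ = 8 := by norm_num

/-- counts of `a < N` with `d ∣ a + s`, `e ∣ a + s'` -/
lemma cnt_crt (N d e s s' : ℕ) (hN : 0 < N) (hd : d ∣ N) (he : e ∣ N) :
    ((range N).filter (fun a => d ∣ a + s ∧ e ∣ a + s')).card
      = if s % (Nat.gcd d e) = s' % (Nat.gcd d e) then N / Nat.lcm d e else 0 := by
  have hd0 : 0 < d := Nat.pos_of_dvd_of_pos hd hN
  have he0 : 0 < e := Nat.pos_of_dvd_of_pos he hN
  have hL0 : 0 < Nat.lcm d e := Nat.lcm_pos hd0 he0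
  have hLN : Nat.lcm d e ∣ N := Nat.lcm_dvd hd he
  split_ifs with h
  · have h1 : s + (d * s - s) ≡ 0 [MOD d] := by
      have : s + (d * s - s) = d * s := by
        have : s ≤ d * s := Nat.le_mul_of_pos_left s hd0
        omega
      rw [this]
      exact (Nat.modEq_zero_iff_dvd.mpr (dvd_mul_right d s))
    have h2 : s' + (e * s' - s') ≡ 0 [MOD e] := by
      have : s' + (e * s' - s') = e * s' := by
        have : s' ≤ e * s' := Nat.le_mul_of_pos_left s' he0
        omega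
      rw [this]
      exact (Nat.modEq_zero_iff_dvd.mpr (dvd_mul_right e s'))
    have h3 : (d * s - s) ≡ (e * s' - s') [MOD Nat.gcd d e] := by
      have h1' := h1.of_dvd (Nat.gcd_dvd_left d e)
      have h2' := h2.of_dvd (Nat.gcd_dvd_right d e)
      have h4 : s ≡ s' [MOD Nat.gcd d e] := h
      exact Nat.ModEq.add_left_cancel h4 (h1'.trans h2'.symm)
    obtain ⟨k, hk1, hk2⟩ := Nat.chineseRemainder' h3
    have hiff : ∀ a, (d ∣ a + s ∧ e ∣ a + s') ↔ a % (Nat.lcm d e) = k % (Nat.lcm d e) := by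
      intro a
      have e1 : d ∣ a + s ↔ a ≡ k [MOD d] := by
        rw [← Nat.modEq_zero_iff_dvd]
        constructor
        · intro ha
          have : a + s ≡ (d * s - s) + s [MOD d] := by
            refine ha.trans ?_
            rw [add_comm]; exact h1.symm
          exact (Nat.ModEq.add_right_cancel' s this).trans hk1.symm
        · intro ha
          have : a + s ≡ (d * s - s) + s [MOD d] := Nat.ModEq.add_right s (ha.trans hk1)
          refine this.trans ?_
          rw [add_comm]; exact h1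
      have e2 : e ∣ a + s' ↔ a ≡ k [MOD e] := by
        rw [← Nat.modEq_zero_iff_dvd]
        constructor
        · intro ha
          have : a + s' ≡ (e * s' - s') + s' [MOD e] := by
            refine ha.trans ?_
            rw [add_comm]; exact h2.symm
          exact (Nat.ModEq.add_right_cancel' s' this).trans hk2.symm
        · intro ha
          have : a + s' ≡ (e * s' - s') + s' [MOD e] := Nat.ModEq.add_right s' (ha.trans hk2)
          refine this.trans ?_
          rw [add_comm]; exact h2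
      rw [e1, e2]
      constructor
      · rintro ⟨ha, hb⟩
        exact Nat.mod_lcm ha hb
      · intro ha
        have ha' : a ≡ k [MOD Nat.lcm d e] := ha
        exact ⟨ha'.of_dvd (Nat.dvd_lcm_left d e), ha'.of_dvd (Nat.dvd_lcm_right d e)⟩
    rw [filter_congr (fun a _ => hiff a)]
    rw [cnt_eq N _ _ hL0 (Nat.mod_lt _ hL0)]
    have : N % Nat.lcm d e = 0 := Nat.mod_eq_zero_of_dvd hLN
    rw [this]
    simp
  · rw [card_eq_zero, filter_eq_empty_iff]
    intro a _ hh
    obtain ⟨ha, hb⟩ := hh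
    apply h
    have h1 : a + s ≡ 0 [MOD Nat.gcd d e] :=
      Nat.modEq_zero_iff_dvd.mpr ((Nat.gcd_dvd_left d e).trans ha)
    have h2 : a + s' ≡ 0 [MOD Nat.gcd d e] :=
      Nat.modEq_zero_iff_dvd.mpr ((Nat.gcd_dvd_right d e).trans hb)
    exact Nat.ModEq.add_left_cancel' a (h1.trans h2.symm)

/-- number of multiples of `d` in `(a, a+M]`. -/
def A (M d a : ℕ) : ℕ := ∑ i ∈ range M, if d ∣ a + (1 + i) then 1 else 0

def ZT (N M a b : ℕ) : ℕ := ∑ i ∈ range M, ∑ j ∈ range M,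
  if Nat.Coprime (Nat.gcd (a + (1 + i)) (b + (1 + j))) N then 1 else 0

lemma ZT_eq (N M a b : ℕ) (hN : 0 < N) :
    (ZT N M a b : ℝ) = ∑ d ∈ N.divisors, (ArithmeticFunction.moebius d : ℝ) * ((A M d a : ℝ) * (A M d b : ℝ)) := by
  have key : ∀ u v : ℕ, (if Nat.Coprime (Nat.gcd u v) N then (1:ℝ) else 0)
      = ∑ d ∈ N.divisors, (ArithmeticFunction.moebius d : ℝ) *
        ((if d ∣ u then 1 else 0) * (if d ∣ v then 1 else 0)) := by
    intro u v
    have h := sum_mu (Nat.gcd (Nat.gcd u v) N)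
    have h2 : (if Nat.Coprime (Nat.gcd u v) N then (1:ℝ) else 0)
      = ((if Nat.gcd (Nat.gcd u v) N = 1 then (1:ℤ) else 0 : ℤ) : ℝ) := by
      simp only [Nat.Coprime]
      split_ifs <;> simp
    rw [h2, ← h]
    push_cast
    have h3 : (Nat.gcd (Nat.gcd u v) N).divisors
        = N.divisors.filter (fun d => d ∣ u ∧ d ∣ v) := by
      ext d
      simp only [Nat.mem_divisors, mem_filter]
      rw [Nat.dvd_gcd_iff, Nat.dvd_gcd_iff]
      have : Nat.gcd (Nat.gcd u v) N ≠ 0 := by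
        intro h0
        rw [Nat.gcd_eq_zero_iff] at h0
        omega
      constructor
      · rintro ⟨⟨⟨h1, h2⟩, h3⟩, _⟩
        exact ⟨⟨h3, by omega⟩, h1, h2⟩
      · rintro ⟨⟨h3, _⟩, h1, h2⟩
        exact ⟨⟨⟨h1, h2⟩, h3⟩, this⟩
    rw [h3, sum_filter]
    apply sum_congr rfl
    intro d _
    by_cases h4 : d ∣ u <;> by_cases h5 : d ∣ v <;> simp [h4, h5]
  unfold ZT A
  push_cast
  rw [sum_congr rfl (fun i _ => sum_congr rfl (fun j _ => key _ _))]
  rw [sum_congr rfl (fun i _ => sum_comm), sum_comm]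
  apply sum_congr rfl
  intro d _
  rw [sum_mul_sum, mul_sum]
  apply sum_congr rfl
  intro i _
  rw [mul_sum]

lemma sum_AA (N M d e : ℕ) (hN : 0 < N) (hd : d ∣ N) (he : e ∣ N) :
    ∑ a ∈ range N, (A M d a) * (A M e a) = (N / Nat.lcm d e) *
      ∑ i ∈ range M, ∑ i' ∈ range M,
        (if i % (Nat.gcd d e) = i' % (Nat.gcd d e) then 1 else 0 : ℕ) := by
  unfold A
  rw [sum_congr rfl (fun a _ => sum_mul_sum _ _ _ _)]
  rw [sum_comm]
  rw [mul_sum]
  apply sum_congr rfl
  intro i _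
  rw [sum_comm, mul_sum]
  apply sum_congr rfl
  intro i' _
  have h1 : ∀ a ∈ range N, ((if d ∣ a + (1 + i) then 1 else 0) * (if e ∣ a + (1 + i') then 1 else 0) : ℕ)
      = if (d ∣ a + (1 + i) ∧ e ∣ a + (1 + i')) then 1 else 0 := by
    intro a _
    by_cases h4 : d ∣ a + (1 + i) <;> by_cases h5 : e ∣ a + (1 + i') <;> simp [h4, h5]
  rw [sum_congr rfl h1, ← card_filter, cnt_crt N d e _ _ hN hd he]
  have h2 : ((1 + i) % (Nat.gcd d e) = (1 + i') % (Nat.gcd d e)) ↔ (i % (Nat.gcd d e) = i' % (Nat.gcd d e)) := by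
    constructor
    · intro h
      exact Nat.ModEq.add_left_cancel' 1 h
    · intro h
      exact Nat.ModEq.add_left 1 h
  by_cases h3 : (i % (Nat.gcd d e) = i' % (Nat.gcd d e))
  · rw [if_pos (h2.mpr h3), if_pos h3]; simp
  · rw [if_neg (fun h => h3 (h2.mp h)), if_neg h3]; simp

lemma sum_A (N M d : ℕ) (hN : 0 < N) (hd : d ∣ N) :
    ∑ a ∈ range N, (A M d a) = (N / d) * M := by
  unfold A
  rw [sum_comm]
  have h1 : ∀ i ∈ range M, ∑ a ∈ range N, (if d ∣ a + (1 + i) then 1 else 0 : ℕ) = N / d := by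
    intro i _
    have := cnt_crt N d 1 (1 + i) 0 hN hd (one_dvd N)
    simp only [Nat.gcd_one_right, Nat.mod_one, if_true, Nat.lcm_one_right] at this
    rw [← card_filter]
    rw [← this]
    congr 1
    ext a
    simp
  rw [sum_congr rfl h1]
  simp [mul_comm]

/-- variance bound for the truncated model -/
lemma var_trunc (N M : ℕ) (hN : 0 < N) :
    (∑ a ∈ range N, ∑ b ∈ range N, (ZT N M a b : ℝ) ^ 2) / (N : ℝ) ^ 2
      - ((∑ a ∈ range N, ∑ b ∈ range N, (ZT N M a b : ℝ)) / (N : ℝ) ^ 2) ^ 2 ≤ 24 * (M : ℝ) ^ 2 := by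
  have hN' : (0 : ℝ) < N := by exact_mod_cast hN
  set D := N.divisors with hD
  have hmem : ∀ d ∈ D, d ∣ N := fun d hd => Nat.dvd_of_mem_divisors hd
  have hpos : ∀ d ∈ D, 0 < d := fun d hd => Nat.pos_of_mem_divisors hd
  -- second moment
  have h2 : (∑ a ∈ range N, ∑ b ∈ range N, (ZT N M a b : ℝ) ^ 2)
      = ∑ d ∈ D, ∑ e ∈ D, (ArithmeticFunction.moebius d : ℝ) * (ArithmeticFunction.moebius e : ℝ) *
        (∑ a ∈ range N, (A M d a : ℝ) * (A M e a : ℝ)) ^ 2 := by
    have : ∀ a ∈ range N, ∀ b ∈ range N, (ZT N M a b : ℝ) ^ 2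
        = ∑ d ∈ D, ∑ e ∈ D, (ArithmeticFunction.moebius d : ℝ) * (ArithmeticFunction.moebius e : ℝ) *
          (((A M d a : ℝ) * (A M e a : ℝ)) * ((A M d b : ℝ) * (A M e b : ℝ))) := by
      intro a _ b _
      rw [ZT_eq N M a b hN, sq, sum_mul_sum]
      apply sum_congr rfl; intro d _
      apply sum_congr rfl; intro e _
      ring
    rw [sum_congr rfl (fun a ha => sum_congr rfl (fun b hb => this a ha b hb))]
    rw [sum_congr rfl (fun a _ => sum_comm), sum_comm]
    apply sum_congr rfl; intro d _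
    rw [sum_congr rfl (fun a _ => sum_comm), sum_comm]
    apply sum_congr rfl; intro e _
    rw [sq (∑ a ∈ range N, (A M d a : ℝ) * (A M e a : ℝ)), sum_mul_sum, mul_sum]
    apply sum_congr rfl; intro a _
    rw [mul_sum]
  have h1 : (∑ a ∈ range N, ∑ b ∈ range N, (ZT N M a b : ℝ))
      = ∑ d ∈ D, (ArithmeticFunction.moebius d : ℝ) * (∑ a ∈ range N, (A M d a : ℝ)) ^ 2 := by
    rw [sum_congr rfl (fun a ha => sum_congr rfl (fun b hb => ZT_eq N M a b hN))]
    rw [sum_congr rfl (fun a _ => sum_comm), sum_comm]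
    apply sum_congr rfl; intro d _
    rw [sq, sum_mul_sum, mul_sum]
    apply sum_congr rfl; intro a _
    rw [mul_sum]
  -- values
  have hA : ∀ d ∈ D, (∑ a ∈ range N, (A M d a : ℝ)) = N * (M / d) := by
    intro d hd
    have := sum_A N M d hN (hmem d hd)
    have h' : ((∑ a ∈ range N, (A M d a) : ℕ) : ℝ) = (((N / d) * M : ℕ) : ℝ) := by rw [this]
    push_cast at h'
    rw [h', Nat.cast_div (hmem d hd) (by have := hpos d hd; positivity)]
    ring
  have key : ∀ d ∈ D, ∀ e ∈ D,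
      |(∑ a ∈ range N, (A M d a : ℝ) * (A M e a : ℝ)) ^ 2 / (N : ℝ) ^ 2 - ((M / d) ^ 2) * ((M / e) ^ 2)|
        ≤ 3 * (M : ℝ) ^ 2 * (1 / (Nat.lcm d e : ℝ) ^ 2) := by
    intro d hd e he
    have hd0 : (0 : ℝ) < d := by exact_mod_cast hpos d hd
    have he0 : (0 : ℝ) < e := by exact_mod_cast hpos e he
    have hgl : (Nat.gcd d e : ℝ) * (Nat.lcm d e : ℝ) = d * e := by
      exact_mod_cast Nat.gcd_mul_lcm d e
    have hg0 : (0 : ℝ) < Nat.gcd d e := by
      exact_mod_cast Nat.gcd_pos_of_pos_left e (hpos d hd)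
    have hl0 : (0 : ℝ) < Nat.lcm d e := by
      exact_mod_cast Nat.lcm_pos (hpos d hd) (hpos e he)
    have h3 := sum_AA N M d e hN (hmem d hd) (hmem e he)
    set S : ℕ := ∑ i ∈ range M, ∑ i' ∈ range M,
        (if i % (Nat.gcd d e) = i' % (Nat.gcd d e) then 1 else 0 : ℕ) with hS
    have h4 : (∑ a ∈ range N, (A M d a : ℝ) * (A M e a : ℝ)) = (N : ℝ) / (Nat.lcm d e : ℝ) * (S : ℝ) := by
      have h' : ((∑ a ∈ range N, (A M d a) * (A M e a) : ℕ) : ℝ) = (((N / Nat.lcm d e) * S : ℕ) : ℝ) := by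
        rw [h3]
      push_cast at h'
      rw [h', Nat.cast_div (Nat.lcm_dvd (hmem d hd) (hmem e he)) hl0.ne']
    rw [h4]
    have h5 := S_bounds M (Nat.gcd d e) (Nat.gcd_pos_of_pos_left e (hpos d hd)) (S : ℝ) (by rw [hS])
    have h6 : ((N : ℝ) / (Nat.lcm d e : ℝ) * (S : ℝ)) ^ 2 / (N : ℝ) ^ 2 - (((M : ℝ) / d) ^ 2) * ((M / e) ^ 2)
        = ((S : ℝ) ^ 2 - ((M : ℝ) ^ 2 / (Nat.gcd d e)) ^ 2) * (1 / (Nat.lcm d e : ℝ) ^ 2) := by
      have h7 : (((M : ℝ) / d) ^ 2) * ((M / e) ^ 2) = (M : ℝ) ^ 4 / ((Nat.gcd d e : ℝ) * (Nat.lcm d e : ℝ)) ^ 2 := by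
        rw [hgl]; field_simp
      rw [h7]
      field_simp
    rw [h6, abs_mul, abs_of_pos (show (0:ℝ) < 1 / (Nat.lcm d e : ℝ) ^ 2 by positivity)]
    gcongr
  have hE1 : ((∑ a ∈ range N, ∑ b ∈ range N, (ZT N M a b : ℝ)) / (N : ℝ) ^ 2) ^ 2
      = ∑ d ∈ D, ∑ e ∈ D, (ArithmeticFunction.moebius d : ℝ) * (ArithmeticFunction.moebius e : ℝ) *
        (((M / d) ^ 2) * ((M / e) ^ 2)) := by
    have : (∑ a ∈ range N, ∑ b ∈ range N, (ZT N M a b : ℝ)) / (N : ℝ) ^ 2
        = ∑ d ∈ D, (ArithmeticFunction.moebius d : ℝ) * ((M / d) ^ 2) := by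
      rw [h1, sum_div]
      apply sum_congr rfl; intro d hd
      rw [hA d hd]
      field_simp
    rw [this, sq, sum_mul_sum]
    apply sum_congr rfl; intro d _
    apply sum_congr rfl; intro e _
    ring
  rw [hE1, h2, sum_div, ← sum_sub_distrib]
  calc ∑ d ∈ D, ((∑ e ∈ D, (ArithmeticFunction.moebius d : ℝ) * (ArithmeticFunction.moebius e : ℝ) *
          (∑ a ∈ range N, (A M d a : ℝ) * (A M e a : ℝ)) ^ 2) / (N : ℝ) ^ 2
        - ∑ e ∈ D, (ArithmeticFunction.moebius d : ℝ) * (ArithmeticFunction.moebius e : ℝ) *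
        (((M / d) ^ 2) * ((M / e) ^ 2)))
      = ∑ d ∈ D, ∑ e ∈ D, (ArithmeticFunction.moebius d : ℝ) * (ArithmeticFunction.moebius e : ℝ) *
        ((∑ a ∈ range N, (A M d a : ℝ) * (A M e a : ℝ)) ^ 2 / (N : ℝ) ^ 2 - ((M / d) ^ 2) * ((M / e) ^ 2)) := by
        apply sum_congr rfl; intro d _
        rw [sum_div, ← sum_sub_distrib]
        apply sum_congr rfl; intro e _
        ring
    _ ≤ ∑ d ∈ D, ∑ e ∈ D, 3 * (M : ℝ) ^ 2 * (1 / (Nat.lcm d e : ℝ) ^ 2) := by
        apply sum_le_sum; intro d hd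
        apply sum_le_sum; intro e he
        refine le_trans (le_abs_self _) ?_
        rw [abs_mul]
        have hmu : |(ArithmeticFunction.moebius d : ℝ) * (ArithmeticFunction.moebius e : ℝ)| ≤ 1 := by
          rw [abs_mul]
          have a1 : |(ArithmeticFunction.moebius d : ℝ)| ≤ 1 := by
            exact_mod_cast ArithmeticFunction.abs_moebius_le_one (n := d)
          have a2 : |(ArithmeticFunction.moebius e : ℝ)| ≤ 1 := by
            exact_mod_cast ArithmeticFunction.abs_moebius_le_one (n := e)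
          exact mul_le_one₀ a1 (abs_nonneg _) a2
        calc _ ≤ 1 * |(∑ a ∈ range N, (A M d a : ℝ) * (A M e a : ℝ)) ^ 2 / (N : ℝ) ^ 2 - ((M / d) ^ 2) * ((M / e) ^ 2)| := by
              gcongr
          _ ≤ _ := by rw [one_mul]; exact key d hd e he
    _ = 3 * (M : ℝ) ^ 2 * ∑ d ∈ D, ∑ e ∈ D, (1 / (Nat.lcm d e : ℝ) ^ 2) := by
        rw [mul_sum]
        apply sum_congr rfl; intro d _
        rw [mul_sum]
    _ ≤ 3 * (M : ℝ) ^ 2 * 8 := by
        gcongr
        apply sum_lcm_le D hpos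
        intro d hd e he
        rw [hD, Nat.mem_divisors] at *
        exact ⟨(Nat.gcd_dvd_left d e).trans hd.1, hd.2⟩
    _ = 24 * (M : ℝ) ^ 2 := by ring

lemma Z_eq (M a b : ℕ) : Z M a b = ∑ i ∈ range M, ∑ j ∈ range M,
    if Nat.Coprime (a + (1 + i)) (b + (1 + j)) then 1 else 0 := by
  unfold Z
  rw [card_filter, sum_product]
  have h : ∀ a M : ℕ, Finset.Icc (a + 1) (a + M) = (range M).image (fun i => a + (1 + i)) := by
    intro a M
    ext x
    simp only [mem_Icc, mem_image, mem_range]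
    constructor
    · intro h; exact ⟨x - (a + 1), by omega, by omega⟩
    · rintro ⟨i, hi, rfl⟩; omega
  rw [h a M, h b M, sum_image (by intro x _ y _ hxy; simp only at hxy; omega)]
  apply sum_congr rfl
  intro i _
  rw [sum_image (by intro x _ y _ hxy; simp only at hxy; omega)]

lemma Z_le (M a b : ℕ) : Z M a b ≤ M ^ 2 := by
  unfold Z
  refine (card_filter_le _ _).trans ?_
  rw [card_product]
  simp [sq]

lemma ZT_le (N M a b : ℕ) : ZT N M a b ≤ M ^ 2 := by
  unfold ZT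
  calc _ ≤ ∑ i ∈ range M, ∑ j ∈ range M, 1 := by
        apply sum_le_sum; intro i _; apply sum_le_sum; intro j _; split_ifs <;> omega
    _ = M ^ 2 := by simp [sq]

lemma ZT_mod (N M a b : ℕ) : ZT N M a b = ZT N M (a % N) (b % N) := by
  unfold ZT
  apply sum_congr rfl; intro i _
  apply sum_congr rfl; intro j _
  have h : ∀ u v u' v' : ℕ, u ≡ u' [MOD N] → v ≡ v' [MOD N] →
      (Nat.Coprime (Nat.gcd u v) N ↔ Nat.Coprime (Nat.gcd u' v') N) := by
    intro u v u' v' hu hv
    have h1 : ∀ u v u' v' : ℕ, u ≡ u' [MOD N] → v ≡ v' [MOD N] →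
        Nat.gcd (Nat.gcd u v) N ∣ Nat.gcd (Nat.gcd u' v') N := by
      intro u v u' v' hu hv
      set g := Nat.gcd (Nat.gcd u v) N with hg
      have gN : g ∣ N := Nat.gcd_dvd_right _ _
      have gu : g ∣ u := (Nat.gcd_dvd_left _ _).trans (Nat.gcd_dvd_left _ _)
      have gv : g ∣ v := (Nat.gcd_dvd_left _ _).trans (Nat.gcd_dvd_right _ _)
      have gu' : g ∣ u' := by
        have := (hu.of_dvd gN)
        exact (Nat.modEq_zero_iff_dvd.mp ((this.symm).trans (Nat.modEq_zero_iff_dvd.mpr gu)))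
      have gv' : g ∣ v' := by
        have := (hv.of_dvd gN)
        exact (Nat.modEq_zero_iff_dvd.mp ((this.symm).trans (Nat.modEq_zero_iff_dvd.mpr gv)))
      exact Nat.dvd_gcd (Nat.dvd_gcd gu' gv') gN
    have h2 := Nat.dvd_antisymm (h1 u v u' v' hu hv) (h1 u' v' u v hu.symm hv.symm)
    simp only [Nat.Coprime, h2]
  have h3 := h (a + (1 + i)) (b + (1 + j)) (a % N + (1 + i)) (b % N + (1 + j))
    (Nat.ModEq.add_right _ (Nat.mod_modEq a N).symm) (Nat.ModEq.add_right _ (Nat.mod_modEq b N).symm)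
  by_cases h4 : Nat.Coprime (Nat.gcd (a + (1 + i)) (b + (1 + j))) N
  · rw [if_pos h4, if_pos (h3.mp h4)]
  · rw [if_neg h4, if_neg (fun h5 => h4 (h3.mpr h5))]

/-- residue class counts in `[1,n]` have density `1/N` -/
lemma tendsto_cnt (N c : ℕ) (hN : 0 < N) (hc : c < N) :
    Tendsto (fun n : ℕ => (((Finset.Icc 1 n).filter (fun a => a % N = c)).card : ℝ) / n) atTop
      (𝓝 (1 / N)) := by
  have hN' : (0 : ℝ) < N := by exact_mod_cast hN
  have hb : ∀ n : ℕ, |(((Finset.Icc 1 n).filter (fun a => a % N = c)).card : ℝ) - n / N| ≤ 4 := by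
    intro n
    have h1 := cnt_eq (n + 1) N c hN hc
    have h2 : (range (n + 1)) = insert 0 (Finset.Icc 1 n) := by
      ext x; simp only [mem_range, mem_insert, mem_Icc]; omega
    have h3 : ((range (n + 1)).filter (fun a => a % N = c)).card
        ≤ ((Finset.Icc 1 n).filter (fun a => a % N = c)).card + 1 := by
      rw [h2, filter_insert]
      split_ifs
      · exact card_insert_le _ _
      · omega
    have h4 : ((Finset.Icc 1 n).filter (fun a => a % N = c)).card
        ≤ ((range (n + 1)).filter (fun a => a % N = c)).card := by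
      apply card_le_card
      apply filter_subset_filter
      rw [h2]; exact subset_insert _ _
    have h5 : ((n : ℝ) + 1) / N - 1 ≤ (((n + 1) / N : ℕ) : ℝ) := by
      have := Nat.lt_floor_add_one (((n : ℝ) + 1) / N)
      have h6 : ⌊((n : ℝ) + 1) / N⌋₊ = (n + 1) / N := by
        rw [← Nat.floor_div_eq_div (K := ℝ)]; push_cast; rfl
      rw [h6] at this
      linarith
    have h7 : (((n + 1) / N : ℕ) : ℝ) ≤ ((n : ℝ) + 1) / N := by
      have := @Nat.cast_div_le ℝ _ _ _ (n + 1) N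
      push_cast at this
      exact this
    have h8 : ((n : ℝ) + 1) / N = n / N + 1 / N := by ring
    have h9 : 1 / (N : ℝ) ≤ 1 := by
      rw [div_le_one hN']; exact_mod_cast hN
    have h10 : 0 < 1 / (N : ℝ) := by positivity
    have h11 : (((range (n + 1)).filter (fun a => a % N = c)).card : ℝ) ≤ (((n + 1) / N : ℕ) : ℝ) + 1 := by
      rw [h1]; push_cast; split_ifs <;> simp
    have h12 : (((n + 1) / N : ℕ) : ℝ) ≤ (((range (n + 1)).filter (fun a => a % N = c)).card : ℝ) := by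
      rw [h1]; push_cast; split_ifs <;> simp
    have h13 : (((range (n + 1)).filter (fun a => a % N = c)).card : ℝ)
        ≤ (((Finset.Icc 1 n).filter (fun a => a % N = c)).card : ℝ) + 1 := by exact_mod_cast h3
    have h14 : (((Finset.Icc 1 n).filter (fun a => a % N = c)).card : ℝ)
        ≤ (((range (n + 1)).filter (fun a => a % N = c)).card : ℝ) := by exact_mod_cast h4
    rw [abs_le]; constructor <;> linarith
  have h0 : Tendsto (fun n : ℕ => (4 : ℝ) / n) atTop (𝓝 0) := tendsto_const_div_atTop_nhds_zero_nat 4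
  rw [tendsto_iff_dist_tendsto_zero]
  refine squeeze_zero' (Eventually.of_forall (fun _ => dist_nonneg)) ?_ h0
  filter_upwards [eventually_gt_atTop 0] with n hn
  have hn' : (0 : ℝ) < n := by exact_mod_cast hn
  rw [Real.dist_eq]
  have : (((Finset.Icc 1 n).filter (fun a => a % N = c)).card : ℝ) / n - 1 / N
      = ((((Finset.Icc 1 n).filter (fun a => a % N = c)).card : ℝ) - n / N) / n := by
    field_simp
  rw [this, abs_div, abs_of_pos hn']
  gcongr
  exact hb n

/-- densities of periodic sets -/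
lemma tendsto_periodic (N : ℕ) (hN : 0 < N) (Q : ℕ → ℕ → Prop) [∀ a b, Decidable (Q a b)] :
    Tendsto (fun n : ℕ => (((Finset.Icc 1 n ×ˢ Finset.Icc 1 n).filter
      (fun q => Q (q.1 % N) (q.2 % N))).card : ℝ) / (n : ℝ) ^ 2) atTop
      (𝓝 ((((range N ×ˢ range N).filter (fun q => Q q.1 q.2)).card : ℝ) / (N : ℝ) ^ 2)) := by
  have h1 : ∀ n : ℕ, (((Finset.Icc 1 n ×ˢ Finset.Icc 1 n).filter
      (fun q => Q (q.1 % N) (q.2 % N))).card : ℝ) / (n : ℝ) ^ 2
      = ∑ q ∈ (range N ×ˢ range N).filter (fun q => Q q.1 q.2),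
        ((((Finset.Icc 1 n).filter (fun a => a % N = q.1)).card : ℝ) / n) *
        ((((Finset.Icc 1 n).filter (fun a => a % N = q.2)).card : ℝ) / n) := by
    intro n
    have h2 : ((Finset.Icc 1 n ×ˢ Finset.Icc 1 n).filter
      (fun q => Q (q.1 % N) (q.2 % N))).card
      = ∑ q ∈ (range N ×ˢ range N).filter (fun q => Q q.1 q.2),
        ((((Finset.Icc 1 n).filter (fun a => a % N = q.1)).card)) *
        ((((Finset.Icc 1 n).filter (fun a => a % N = q.2)).card)) := by
      rw [card_eq_sum_card_fiberwise (f := fun q : ℕ × ℕ => (q.1 % N, q.2 % N))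
        (t := (range N ×ˢ range N).filter (fun q => Q q.1 q.2))]
      · apply sum_congr rfl
        intro q hq
        rw [← card_product]
        congr 1
        ext ⟨a, b⟩
        simp only [mem_filter, mem_product, mem_Icc, Prod.ext_iff]
        simp only [mem_filter, mem_product, mem_range] at hq
        constructor
        · rintro ⟨⟨⟨h1, h2⟩, _⟩, h3, h4⟩
          exact ⟨⟨h1, h3⟩, ⟨h2, h4⟩⟩
        · rintro ⟨⟨h1, h3⟩, ⟨h2, h4⟩⟩
          refine ⟨⟨⟨h1, h2⟩, ?_⟩, h3, h4⟩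
          rw [h3, h4]; exact hq.2
      · intro q hq
        simp only [coe_filter, mem_product, mem_Icc, Set.mem_ofPred_eq, mem_range] at hq ⊢
        exact ⟨⟨Nat.mod_lt _ hN, Nat.mod_lt _ hN⟩, hq.2⟩
    rw [h2]
    push_cast
    rw [sum_div]
    apply sum_congr rfl
    intro q _
    rw [div_mul_div_comm, sq]
  simp_rw [h1]
  have h3 : ((((range N ×ˢ range N).filter (fun q => Q q.1 q.2)).card : ℝ) / (N : ℝ) ^ 2)
      = ∑ q ∈ (range N ×ˢ range N).filter (fun q => Q q.1 q.2), ((1 : ℝ) / N) * (1 / N) := by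
    rw [sum_const, nsmul_eq_mul]
    field_simp
  rw [h3]
  apply tendsto_finsetSum
  intro q hq
  simp only [mem_filter, mem_product, mem_range] at hq
  exact (tendsto_cnt N q.1 hN hq.1.1).mul (tendsto_cnt N q.2 hN hq.1.2)

/-- frequency in the truncated model -/
noncomputable def freqT (y M r n : ℕ) : ℝ :=
  (((Finset.Icc 1 n ×ˢ Finset.Icc 1 n).filter
    (fun q => ZT (Nat.factorial y) M q.1 q.2 = r)).card : ℝ) / (n : ℝ) ^ 2

noncomputable def probT (y M r : ℕ) : ℝ :=
  (((range (Nat.factorial y) ×ˢ range (Nat.factorial y)).filter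
    (fun q => ZT (Nat.factorial y) M q.1 q.2 = r)).card : ℝ) / (Nat.factorial y : ℝ) ^ 2

lemma tendsto_freqT (y M r : ℕ) : Tendsto (fun n => freqT y M r n) atTop (𝓝 (probT y M r)) := by
  have h := tendsto_periodic (Nat.factorial y) (Nat.factorial_pos y)
    (fun a b => ZT (Nat.factorial y) M a b = r)
  unfold freqT probT
  refine h.congr ?_
  intro n
  congr 3
  apply filter_congr
  intro q _
  rw [← ZT_mod]

/-- the multiples of k in a shifted window -/
lemma cnt_mult_le (n M k i : ℕ) (hi : i < M) :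
    ((Finset.Icc 1 n).filter (fun a => k ∣ a + (1 + i))).card ≤ (n + M) / k := by
  have h := Nat.Ioc_filter_dvd_card_eq_div (n + M) k
  rw [← h]
  apply card_le_card_of_injOn (fun a => a + (1 + i))
  · intro a ha
    simp only [coe_filter, mem_Icc, Set.mem_ofPred_eq, mem_Ioc] at ha ⊢
    refine ⟨by omega, ha.2⟩
  · intro a _ b _ hab
    simp only at hab
    omega

lemma bad_card (y M n : ℕ) (hy : 0 < y) :
    (((Finset.Icc 1 n ×ˢ Finset.Icc 1 n).filter
      (fun q => Z M q.1 q.2 ≠ ZT (Nat.factorial y) M q.1 q.2)).card : ℝ)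
      ≤ (M : ℝ) ^ 2 * ((n : ℝ) + M) ^ 2 / y := by
  have hsub : ((Finset.Icc 1 n ×ˢ Finset.Icc 1 n).filter
      (fun q => Z M q.1 q.2 ≠ ZT (Nat.factorial y) M q.1 q.2))
      ⊆ (range M ×ˢ range M).biUnion (fun ij => (Ioc y (n + M)).biUnion (fun k =>
        (Finset.Icc 1 n).filter (fun a => k ∣ a + (1 + ij.1)) ×ˢ
        (Finset.Icc 1 n).filter (fun b => k ∣ b + (1 + ij.2)))) := by
    intro q hq
    simp only [mem_filter, mem_product, mem_Icc] at hq
    obtain ⟨⟨⟨ha1, ha2⟩, hb1, hb2⟩, hne⟩ := hq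
    rw [Z_eq] at hne
    unfold ZT at hne
    have : ∃ i ∈ range M, ∃ j ∈ range M,
        ¬ (Nat.Coprime (q.1 + (1 + i)) (q.2 + (1 + j)) ↔
        Nat.Coprime (Nat.gcd (q.1 + (1 + i)) (q.2 + (1 + j))) (Nat.factorial y)) := by
      by_contra hcon
      push Not at hcon
      apply hne
      apply sum_congr rfl; intro i hi
      apply sum_congr rfl; intro j hj
      have := hcon i hi j hj
      by_cases h4 : Nat.Coprime (q.1 + (1 + i)) (q.2 + (1 + j))
      · rw [if_pos h4, if_pos (this.mp h4)]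
      · rw [if_neg h4, if_neg (fun h5 => h4 (this.mpr h5))]
    obtain ⟨i, hi, j, hj, hij⟩ := this
    have himp : Nat.Coprime (q.1 + (1 + i)) (q.2 + (1 + j)) →
        Nat.Coprime (Nat.gcd (q.1 + (1 + i)) (q.2 + (1 + j))) (Nat.factorial y) := by
      intro h
      rw [Nat.Coprime] at h
      rw [h]; exact Nat.coprime_one_left _
    have h1 : Nat.Coprime (Nat.gcd (q.1 + (1 + i)) (q.2 + (1 + j))) (Nat.factorial y) ∧
        ¬ Nat.Coprime (q.1 + (1 + i)) (q.2 + (1 + j)) := by tauto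
    obtain ⟨h2, h3⟩ := h1
    obtain ⟨p, hp, hp1, hp2⟩ := Nat.Prime.not_coprime_iff_dvd.mp h3
    have hpy : y < p := by
      by_contra hle
      push Not at hle
      have hd : p ∣ Nat.factorial y := Nat.dvd_factorial hp.pos hle
      exact Nat.Prime.not_coprime_iff_dvd.mpr ⟨p, hp, Nat.dvd_gcd hp1 hp2, hd⟩ h2
    simp only [mem_biUnion, mem_product, mem_filter, mem_Icc, mem_Ioc]
    refine ⟨(i, j), ⟨hi, hj⟩, p, ⟨hpy, ?_⟩, ⟨⟨ha1, ha2⟩, hp1⟩, ⟨hb1, hb2⟩, hp2⟩
    have := Nat.le_of_dvd (by omega) hp1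
    have := mem_range.mp hi
    omega
  have h1 : (((Finset.Icc 1 n ×ˢ Finset.Icc 1 n).filter
      (fun q => Z M q.1 q.2 ≠ ZT (Nat.factorial y) M q.1 q.2)).card)
      ≤ ∑ ij ∈ (range M ×ˢ range M), ∑ k ∈ Ioc y (n + M), ((n + M) / k) * ((n + M) / k) := by
    refine (card_le_card hsub).trans ?_
    refine card_biUnion_le.trans ?_
    apply sum_le_sum
    intro ij hij
    simp only [mem_product, mem_range] at hij
    refine card_biUnion_le.trans ?_
    apply sum_le_sum
    intro k _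
    rw [card_product]
    exact Nat.mul_le_mul (cnt_mult_le n M k ij.1 hij.1) (cnt_mult_le n M k ij.2 hij.2)
  have h2 : (((∑ ij ∈ (range M ×ˢ range M), ∑ k ∈ Ioc y (n + M), ((n + M) / k) * ((n + M) / k) : ℕ)) : ℝ)
      ≤ (M : ℝ) ^ 2 * (((n : ℝ) + M) ^ 2 * (1 / y)) := by
    rw [sum_const, card_product, card_range, nsmul_eq_mul]
    push_cast
    rw [← sq]
    apply mul_le_mul_of_nonneg_left _ (by positivity)
    by_cases hc : y ≤ n + M
    · calc ∑ k ∈ Ioc y (n + M), (((n + M) / k : ℕ) : ℝ) * (((n + M) / k : ℕ) : ℝ)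
          ≤ ∑ k ∈ Ioc y (n + M), ((n : ℝ) + M) ^ 2 * ((k : ℝ) ^ 2)⁻¹ := by
            apply sum_le_sum
            intro k hk
            have hk0 : (0 : ℝ) < k := by
              have := (mem_Ioc.mp hk).1
              exact_mod_cast (by omega : 0 < k)
            have h3 : (((n + M) / k : ℕ) : ℝ) ≤ ((n : ℝ) + M) / k := by
              have := @Nat.cast_div_le ℝ _ _ _ (n + M) k
              push_cast at this
              exact this
            calc (((n + M) / k : ℕ) : ℝ) * (((n + M) / k : ℕ) : ℝ)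
                ≤ (((n : ℝ) + M) / k) * (((n : ℝ) + M) / k) := by gcongr
              _ = ((n : ℝ) + M) ^ 2 * ((k : ℝ) ^ 2)⁻¹ := by field_simp
        _ = ((n : ℝ) + M) ^ 2 * ∑ k ∈ Ioc y (n + M), ((k : ℝ) ^ 2)⁻¹ := by rw [mul_sum]
        _ ≤ ((n : ℝ) + M) ^ 2 * (1 / y) := by
            apply mul_le_mul_of_nonneg_left _ (by positivity)
            have := sum_Ioc_inv_sq_le_sub (α := ℝ) (k := y) (n := n + M) (by omega) hc
            have h4 : (0 : ℝ) ≤ ((n + M : ℕ) : ℝ)⁻¹ := by positivity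
            rw [one_div]
            linarith
    · rw [Ioc_eq_empty (by omega)]
      simp only [sum_empty]
      positivity
  have h3 : ((((Finset.Icc 1 n ×ˢ Finset.Icc 1 n).filter
      (fun q => Z M q.1 q.2 ≠ ZT (Nat.factorial y) M q.1 q.2)).card : ℕ) : ℝ)
      ≤ ((∑ ij ∈ (range M ×ˢ range M), ∑ k ∈ Ioc y (n + M), ((n + M) / k) * ((n + M) / k) : ℕ) : ℝ) := by
    exact_mod_cast h1
  refine h3.trans (h2.trans (le_of_eq ?_))
  ring

lemma freq_close (y M r n : ℕ) (hy : 0 < y) (hn : 0 < n) :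
    |freq M r n - freqT y M r n| ≤ (M : ℝ) ^ 2 * (1 + (M : ℝ) / n) ^ 2 / y := by
  have hn' : (0 : ℝ) < n := by exact_mod_cast hn
  unfold freq freqT
  rw [← sub_div, abs_div, abs_of_pos (show (0 : ℝ) < (n : ℝ) ^ 2 by positivity)]
  have hb := bad_card y M n hy
  have hcard : ∀ (S : Finset (ℕ × ℕ)) (f g : ℕ × ℕ → ℕ),
      |((S.filter (fun q => f q = r)).card : ℝ) - ((S.filter (fun q => g q = r)).card : ℝ)|
        ≤ ((S.filter (fun q => f q ≠ g q)).card : ℝ) := by
    intro S f g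
    have h1 : ∀ f g : ℕ × ℕ → ℕ, (S.filter (fun q => f q = r)).card
        ≤ (S.filter (fun q => g q = r)).card + (S.filter (fun q => f q ≠ g q)).card := by
      intro f g
      rw [← card_union_add_card_inter]
      refine le_trans (card_le_card ?_) (Nat.le_add_right _ _)
      intro q hq
      simp only [mem_filter, mem_union] at hq ⊢
      by_cases h : f q = g q
      · left; exact ⟨hq.1, by rw [← h]; exact hq.2⟩
      · right; exact ⟨hq.1, h⟩
    have h2 := h1 f g
    have h3 := h1 g f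
    have h4 : (S.filter (fun q => g q ≠ f q)) = (S.filter (fun q => f q ≠ g q)) := by
      apply filter_congr; intro q _; exact ne_comm
    rw [h4] at h3
    have h2' : ((S.filter (fun q => f q = r)).card : ℝ)
        ≤ (S.filter (fun q => g q = r)).card + (S.filter (fun q => f q ≠ g q)).card := by
      exact_mod_cast h2
    have h3' : ((S.filter (fun q => g q = r)).card : ℝ)
        ≤ (S.filter (fun q => f q = r)).card + (S.filter (fun q => f q ≠ g q)).card := by
      exact_mod_cast h3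
    rw [abs_le]; constructor <;> linarith
  have h5 := (hcard (Finset.Icc 1 n ×ˢ Finset.Icc 1 n) (fun q => Z M q.1 q.2)
    (fun q => ZT (Nat.factorial y) M q.1 q.2)).trans hb
  calc _ ≤ ((M : ℝ) ^ 2 * ((n : ℝ) + M) ^ 2 / y) / (n : ℝ) ^ 2 := by gcongr
    _ = (M : ℝ) ^ 2 * (1 + (M : ℝ) / n) ^ 2 / y := by
      field_simp

lemma tendsto_bound (y M : ℕ) :
    Tendsto (fun n : ℕ => (M : ℝ) ^ 2 * (1 + (M : ℝ) / n) ^ 2 / y) atTop (𝓝 ((M : ℝ) ^ 2 / y)) := by
  have h0 : Tendsto (fun n : ℕ => (M : ℝ) / n) atTop (𝓝 0) := tendsto_const_div_atTop_nhds_zero_nat _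
  have h1 : Tendsto (fun n : ℕ => (M : ℝ) ^ 2 * (1 + (M : ℝ) / n) ^ 2 / y) atTop
      (𝓝 ((M : ℝ) ^ 2 * (1 + 0) ^ 2 / y)) := by
    apply Tendsto.div_const
    apply Tendsto.const_mul
    exact (tendsto_const_nhds.add h0).pow 2
  simpa using h1

lemma freq_converges (M r : ℕ) : ∃ x, Tendsto (fun n : ℕ => freq M r n) atTop (𝓝 x) := by
  apply cauchySeq_tendsto_of_complete
  rw [Metric.cauchySeq_iff']
  intro ε hε
  -- choose y with M^2 / y small
  obtain ⟨y, hy0, hy⟩ : ∃ y : ℕ, 0 < y ∧ (M : ℝ) ^ 2 / y < ε / 8 := by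
    have : Tendsto (fun y : ℕ => (M : ℝ) ^ 2 / y) atTop (𝓝 0) := tendsto_const_div_atTop_nhds_zero_nat _
    obtain ⟨y, hy⟩ := ((this.eventually (gt_mem_nhds (show (0 : ℝ) < ε / 8 by linarith))).and
      (eventually_gt_atTop 0)).exists
    exact ⟨y, hy.2, hy.1⟩
  have h1 := (tendsto_bound y M).eventually (gt_mem_nhds hy)
  have h2 := Metric.tendsto_atTop.mp (tendsto_freqT y M r) (ε / 8) (by linarith)
  obtain ⟨n2, hn2⟩ := h2
  obtain ⟨n1, hn1⟩ := eventually_atTop.mp h1
  refine ⟨max (max n1 n2) 1, ?_⟩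
  intro n hn
  set m := max (max n1 n2) 1 with hm
  have hm1 : 1 ≤ m := le_max_right _ _
  have a1 := freq_close y M r n hy0 (by omega)
  have a2 := freq_close y M r m hy0 (by omega)
  have b1 := hn1 n (le_trans (le_trans (le_max_left _ _) (le_max_left _ _)) hn)
  have b2 := hn1 m (le_trans (le_max_left _ _) (le_max_left _ _))
  have c1 := hn2 n (le_trans (le_trans (le_max_right _ _) (le_max_left _ _)) hn)
  have c2 := hn2 m (le_trans (le_max_right _ _) (le_max_left _ _))
  rw [Real.dist_eq] at *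
  rw [abs_lt] at c1 c2 ⊢
  rw [abs_le] at a1 a2
  constructor <;> linarith [a1.1, a1.2, a2.1, a2.2, c1.1, c1.2, c2.1, c2.2]

lemma tendsto_prob (M r : ℕ) : Tendsto (fun n : ℕ => freq M r n) atTop (𝓝 (prob M r)) :=
  tendsto_nhds_limUnder (freq_converges M r)

lemma prob_close (y M r : ℕ) (hy : 0 < y) : |prob M r - probT y M r| ≤ (M : ℝ) ^ 2 / y := by
  have h1 : Tendsto (fun n : ℕ => |freq M r n - freqT y M r n|) atTop
      (𝓝 |prob M r - probT y M r|) := ((tendsto_prob M r).sub (tendsto_freqT y M r)).abs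
  refine le_of_tendsto_of_tendsto h1 (tendsto_bound y M) ?_
  filter_upwards [eventually_gt_atTop 0] with n hn
  exact freq_close y M r n hy hn

lemma tendsto_probT (M r : ℕ) : Tendsto (fun y : ℕ => probT y M r) atTop (𝓝 (prob M r)) := by
  rw [tendsto_iff_dist_tendsto_zero]
  have h0 : Tendsto (fun y : ℕ => (M : ℝ) ^ 2 / y) atTop (𝓝 0) := tendsto_const_div_atTop_nhds_zero_nat _
  refine squeeze_zero' (Eventually.of_forall (fun _ => dist_nonneg)) ?_ h0
  filter_upwards [eventually_gt_atTop 0] with y hy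
  rw [dist_comm, Real.dist_eq]
  exact prob_close y M r hy

lemma sum_probT (y M : ℕ) (F : ℕ → ℝ) :
    ∑ r ∈ range (M ^ 2 + 1), F r * probT y M r
      = (∑ a ∈ range (Nat.factorial y), ∑ b ∈ range (Nat.factorial y),
          F (ZT (Nat.factorial y) M a b)) / (Nat.factorial y : ℝ) ^ 2 := by
  unfold probT
  rw [← sum_product']
  have h1 : ∑ q ∈ range (Nat.factorial y) ×ˢ range (Nat.factorial y),
      F (ZT (Nat.factorial y) M q.1 q.2)
      = ∑ r ∈ range (M ^ 2 + 1), ∑ q ∈ (range (Nat.factorial y) ×ˢ range (Nat.factorial y)).filter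
        (fun q => ZT (Nat.factorial y) M q.1 q.2 = r), F (ZT (Nat.factorial y) M q.1 q.2) := by
    rw [sum_fiberwise_of_maps_to]
    intro q _
    rw [mem_range]
    have := ZT_le (Nat.factorial y) M q.1 q.2
    omega
  rw [h1, sum_div]
  apply sum_congr rfl
  intro r _
  have h2 : ∑ q ∈ (range (Nat.factorial y) ×ˢ range (Nat.factorial y)).filter
        (fun q => ZT (Nat.factorial y) M q.1 q.2 = r), F (ZT (Nat.factorial y) M q.1 q.2)
      = ∑ q ∈ (range (Nat.factorial y) ×ˢ range (Nat.factorial y)).filter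
        (fun q => ZT (Nat.factorial y) M q.1 q.2 = r), F r := by
    apply sum_congr rfl
    intro q hq
    rw [(mem_filter.mp hq).2]
  rw [h2, sum_const, nsmul_eq_mul]
  ring

lemma sum_probT_one (y M : ℕ) : ∑ r ∈ range (M ^ 2 + 1), probT y M r = 1 := by
  have h := sum_probT y M (fun _ => 1)
  simp only [one_mul] at h
  rw [h]
  have : (0 : ℝ) < (Nat.factorial y : ℝ) := by exact_mod_cast Nat.factorial_pos y
  simp only [sum_const, card_range, nsmul_eq_mul, mul_one]
  field_simp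

lemma sum_prob_one (M : ℕ) : ∑ r ∈ range (M ^ 2 + 1), prob M r = 1 := by
  have h1 : Tendsto (fun y : ℕ => ∑ r ∈ range (M ^ 2 + 1), probT y M r) atTop
      (𝓝 (∑ r ∈ range (M ^ 2 + 1), prob M r)) := tendsto_finsetSum _ (fun r _ => tendsto_probT M r)
  have h2 : Tendsto (fun y : ℕ => ∑ r ∈ range (M ^ 2 + 1), probT y M r) atTop (𝓝 1) := by
    simp_rw [sum_probT_one]
    exact tendsto_const_nhds
  exact tendsto_nhds_unique h1 h2

lemma variance_le (M : ℕ) : variance M ≤ 24 * (M : ℝ) ^ 2 := by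
  have h1 : variance M = (∑ r ∈ range (M ^ 2 + 1), (r : ℝ) ^ 2 * prob M r) - (mean M) ^ 2 := by
    unfold variance
    have : ∀ r ∈ range (M ^ 2 + 1), ((r : ℝ) - mean M) ^ 2 * prob M r
        = (r : ℝ) ^ 2 * prob M r - (2 * mean M) * ((r : ℝ) * prob M r) + (mean M) ^ 2 * prob M r := by
      intro r _; ring
    rw [sum_congr rfl this, sum_add_distrib, sum_sub_distrib, ← mul_sum, ← mul_sum, sum_prob_one]
    have h : ∑ r ∈ range (M ^ 2 + 1), (r : ℝ) * prob M r = mean M := rfl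
    rw [h]; ring
  rw [h1]
  have h2 : Tendsto (fun y : ℕ => (∑ r ∈ range (M ^ 2 + 1), (r : ℝ) ^ 2 * probT y M r)
      - (∑ r ∈ range (M ^ 2 + 1), (r : ℝ) * probT y M r) ^ 2) atTop
      (𝓝 ((∑ r ∈ range (M ^ 2 + 1), (r : ℝ) ^ 2 * prob M r) - (mean M) ^ 2)) := by
    apply Tendsto.sub
    · exact tendsto_finsetSum _ (fun r _ => (tendsto_probT M r).const_mul _)
    · apply Tendsto.pow
      exact tendsto_finsetSum _ (fun r _ => (tendsto_probT M r).const_mul _)
  refine le_of_tendsto h2 (Eventually.of_forall (fun y => ?_))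
  have h3 := sum_probT y M (fun r => (r : ℝ) ^ 2)
  have h4 := sum_probT y M (fun r => (r : ℝ))
  rw [h3, h4]
  exact var_trunc (Nat.factorial y) M (Nat.factorial_pos y)

/-- The limits `p_M(r)` exist and sum to `1`, and the variance of the limit law is at most
`24 M²` for every `M ≥ 1`. -/
theorem result :
    (∀ M r : ℕ, Tendsto (fun n : ℕ => freq M r n) atTop (𝓝 (prob M r))) ∧
    (∀ M : ℕ, ∑ r ∈ Finset.range (M ^ 2 + 1), prob M r = 1) ∧
    (∀ M : ℕ, 1 ≤ M → variance M ≤ 24 * (M : ℝ) ^ 2) :=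
  ⟨tendsto_prob, sum_prob_one, fun M _ => variance_le M⟩

end Pool.Agent.Results.MP_143e3a_nt.VarianceBound
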